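import Pool.Agent.Y98.EC.Cone
import Pool.Agent.Results.MP_e075e6_ag.PositiveExtremalRaysWeyl

/-!
# The cone theorem for divisors of nonnegative degree on blow-ups of projective space

Let `X` be the blow-up of complex projective `n`-space in `s ≥ n + 1` very general points, `n ≥ 2`,
and let `F` be the anticanonical curve class. Then `D ↦ ℝ₊ D` is a bijection of the set of Weyl
divisors with the set of those extremal rays of the closed cone of effective divisor classes on which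
`F` is positive; there are finitely many of bounded degree, and the part of the closed cone where
`F ≥ 0` is the sum of the part where `F = 0` and of the (not closed) convex cone spanned by the Weyl
divisors: at most `s + 1` Weyl divisors are needed for each class.
-/

set_option autoImplicit false

namespace Pool.Agent.Results.MP_e075e6_ag.ConeTheorem

open Pool.Agent.H689R3.Weyl Pool.Agent.Results.MP_e075e6_ag.PositiveExtremalRaysWeyl
  Pool.Agent.Y98.EC

variable {s n : ℕ}

/-- For very general points an effective class is effective for all points. -/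
lemma veryGood (n s : ℕ) : VeryGenerally (fun p : Fin s → Fin (n + 1) → ℂ =>
    ∀ D : NInt s, IsEffective p D → EffAll n D) := by
  classical
  obtain ⟨e, he⟩ := exists_surjective_nat (NInt s)
  have hG : ∀ D : NInt s, ∃ G : MvPolynomial (Fin s × Fin (n + 1)) ℂ, G ≠ 0 ∧
      (¬ EffAll n D → ∀ p, IsEffective p D → MvPolynomial.eval (flat p) G = 0) := by
    intro D
    by_cases hD : EffAll n D
    · exact ⟨1, one_ne_zero, fun h => absurd hD h⟩
    · have hD' := hD
      unfold EffAll at hD'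
      push Not at hD'
      obtain ⟨p', hp'⟩ := hD'
      obtain ⟨G, hG0, hG⟩ := exists_poly D p' hp'
      exact ⟨G, hG0, fun _ => hG⟩
  choose G hG0 hG using hG
  refine ⟨fun k => G (e k), fun k => hG0 _, fun p hp D hD => ?_⟩
  by_contra hcon
  obtain ⟨k, rfl⟩ := he D
  exact hp k (hG _ hcon p hD)

lemma toReal_inj : Function.Injective (toReal : NInt s → NOne s) := by
  intro D D' h
  have h3 : (D.1 : ℝ) = D'.1 := congrArg Prod.fst h
  have h4 : (fun i => (D.2 i : ℝ)) = fun i => (D'.2 i : ℝ) := congrArg Prod.snd h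
  ext1
  · exact_mod_cast h3
  · funext i
    have h5 := congrFun h4 i
    exact_mod_cast h5

/-- The decomposition of a class of nonnegative degree with a remainder of degree zero. -/
lemma dec_zero {C : Set (NOne s)} (hC : GoodCone s n C) (hn : 2 ≤ n) (hs : n + 1 ≤ s) {x : NOne s}
    (hx : x ∈ C) (hF : 0 ≤ fDeg n x) :
    ∃ (T : Finset (NInt s)) (a : NInt s → ℝ) (y : NOne s), T.card ≤ s + 1 ∧
      (∀ D ∈ T, IsWeylDivisor n D ∧ 0 < a D) ∧ y ∈ C ∧ fDeg n y = 0 ∧
      x = y + ∑ D ∈ T, a D • toReal D := by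
  obtain ⟨T, a, y, h1, h2, h3, h4, h5⟩ := cone_dec hC hn hs hx
  obtain ⟨w, hw⟩ : ∃ w, w = ∑ D ∈ T, a D • toReal D := ⟨_, rfl⟩
  have hwC : w ∈ C := by
    rw [hw]
    exact sum_mem' hC _ _ fun D hD =>
      hC.smul_mem _ (h2 D hD).2.le _ (hC.weyl_mem _ ⟨D, (h2 D hD).1, rfl⟩)
  have hsum : fDeg n x = fDeg n y + fDeg n w := by rw [h5, fDeg_add, hw]
  rcases eq_or_lt_of_le (show 0 ≤ fDeg n x from hF) with h6 | h6
  · exact ⟨∅, fun _ => 0, x, by simp, by simp, hx, h6.symm, by simp⟩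
  have hw0 : 0 < fDeg n w := by linarith
  obtain ⟨θ, hθ⟩ : ∃ θ, θ = -fDeg n y / fDeg n w := ⟨_, rfl⟩
  have hθ0 : 0 ≤ θ := by
    rw [hθ]
    exact div_nonneg (by linarith) hw0.le
  have hθ1 : θ < 1 := by
    rw [hθ, div_lt_one hw0]
    linarith
  refine ⟨T, fun D => (1 - θ) * a D, y + θ • w, h1, fun D hD => ⟨(h2 D hD).1,
    mul_pos (by linarith) (h2 D hD).2⟩, hC.add_mem _ h3 _ (hC.smul_mem _ hθ0 _ hwC), ?_, ?_⟩
  · rw [fDeg_add, fDeg_smul, hθ, div_mul_cancel₀ _ hw0.ne']
    ring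
  · have e : ∑ D ∈ T, ((1 - θ) * a D) • toReal D = (1 - θ) • w := by
      rw [hw, Finset.smul_sum]
      exact Finset.sum_congr rfl fun D _ => by rw [smul_smul]
    rw [e, h5, ← hw, add_assoc, ← add_smul]
    congr 1
    rw [add_sub_cancel, one_smul]

/-- **The cone theorem.** Let `n ≥ 2`, `s ≥ n + 1`. For very general points `p 1, …, p s` of complex
projective `n`-space, the following holds for the closed cone `Eff` of effective divisor classes of
the blow-up, where `F` denotes the degree on the anticanonical curve class.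

* A class `x` with `F x > 0` spans an extremal ray of `Eff` if and only if it is a positive multiple
  of a Weyl divisor.
* Different Weyl divisors span different rays.
* There are finitely many Weyl divisors of bounded degree.
* The classes `x` in `Eff` with `F x ≥ 0` are the sums of classes `y` in `Eff` with `F y = 0` and of
  positive multiples of at most `s + 1` Weyl divisors.
* For every `B ≥ 0` the classes in `Eff` are the sums of classes `y` in `Eff` with `B F y ≤ deg y`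
  and of positive multiples of at most `s + 1` Weyl divisors of degree at most `B`. -/
theorem result (n s : ℕ) (hn : 2 ≤ n) (hs : n + 1 ≤ s) :
    VeryGenerally (fun p : Fin s → Fin (n + 1) → ℂ =>
      (∀ x : NOne s, 0 < fDeg n x → (SpansExtremalRay (pseudoEffCone p) x ↔
        ∃ D : NInt s, IsWeylDivisor n D ∧ ∃ t : ℝ, 0 < t ∧ x = t • toReal D)) ∧
      (∀ D D' : NInt s, IsWeylDivisor n D → IsWeylDivisor n D' →
        ray (toReal D) = ray (toReal D') → D = D') ∧
      (∀ B : ℝ, {D : NInt s | IsWeylDivisor n D ∧ (D.1 : ℝ) ≤ B}.Finite) ∧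
      (∀ x : NOne s, (x ∈ pseudoEffCone p ∧ 0 ≤ fDeg n x) ↔
        ∃ (T : Finset (NInt s)) (a : NInt s → ℝ) (y : NOne s), T.card ≤ s + 1 ∧
          (∀ D ∈ T, IsWeylDivisor n D ∧ 0 < a D) ∧ y ∈ pseudoEffCone p ∧ fDeg n y = 0 ∧
          x = y + ∑ D ∈ T, a D • toReal D) ∧
      (∀ B : ℝ, 0 ≤ B → ∀ x : NOne s, x ∈ pseudoEffCone p ↔
        ∃ (T : Finset (NInt s)) (a : NInt s → ℝ) (y : NOne s), T.card ≤ s + 1 ∧
          (∀ D ∈ T, IsWeylDivisor n D ∧ (D.1 : ℝ) ≤ B ∧ 0 < a D) ∧ y ∈ pseudoEffCone p ∧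
          B * fDeg n y ≤ y.1 ∧ x = y + ∑ D ∈ T, a D • toReal D)) := by
  obtain ⟨G, hG0, hG⟩ := veryGood n s
  refine ⟨G, hG0, fun p hp => ?_⟩
  have hC : GoodCone s n (pseudoEffCone p) := goodCone (hG p hp)
  have hmem : ∀ (T : Finset (NInt s)) (a : NInt s → ℝ) (y : NOne s),
      (∀ D ∈ T, IsWeylDivisor n D ∧ 0 < a D) → y ∈ pseudoEffCone p →
      y + ∑ D ∈ T, a D • toReal D ∈ pseudoEffCone p := fun T a y h hy =>
    hC.add_mem _ hy _ (sum_mem' hC _ _ fun D hD =>
      hC.smul_mem _ (h D hD).2.le _ (hC.weyl_mem _ ⟨D, (h D hD).1, rfl⟩))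
  refine ⟨fun x hF => ⟨fun hx => ?_, ?_⟩, ?_, ?_, fun x => ⟨fun h => ?_, ?_⟩,
    fun B hB x => ⟨fun h => cone_dec_finite hC hn hs h hB, ?_⟩⟩
  · obtain ⟨v, ⟨D, hD, rfl⟩, t, ht, hxt⟩ := extremal_weyl hn hs hC hx hF
    exact ⟨D, hD, t, ht, hxt⟩
  · rintro ⟨D, hD, t, ht, rfl⟩
    obtain ⟨h1, h2, h3⟩ := weyl_extremal hC hD
    have hray : ∀ y, y ∈ ray (t • toReal D) ↔ y ∈ ray (toReal D) := by
      intro y
      constructor
      · rintro ⟨r, hr, rfl⟩
        exact ⟨r * t, mul_nonneg hr ht.le, by rw [smul_smul]⟩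
      · rintro ⟨r, hr, rfl⟩
        exact ⟨r / t, div_nonneg hr ht.le, by rw [smul_smul, div_mul_cancel₀ _ ht.ne']⟩
    refine ⟨hC.smul_mem _ ht.le _ h1, smul_ne_zero ht.ne' h2, fun y hy z hz hyz => ?_⟩
    obtain ⟨h4, h5⟩ := h3 y hy z hz ((hray _).1 hyz)
    exact ⟨(hray _).2 h4, (hray _).2 h5⟩
  · intro D D' hD hD' h
    have h1 : toReal D ∈ ray (toReal D') := by
      rw [← h]
      exact ⟨1, zero_le_one, (one_smul _ _).symm⟩
    obtain ⟨t, _, ht⟩ := h1
    have h2 := congrArg (fDeg n) ht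
    rw [fDeg_smul, weyl_fDeg ⟨D, hD, rfl⟩, weyl_fDeg ⟨D', hD', rfl⟩, mul_one] at h2
    rw [← h2, one_smul] at ht
    exact toReal_inj ht
  · intro B
    refine Set.Finite.of_finite_image ((weyl_finite hC hn B).subset ?_) toReal_inj.injOn
    rintro _ ⟨D, ⟨hD, hB⟩, rfl⟩
    exact ⟨⟨D, hD, rfl⟩, hB⟩
  · exact dec_zero hC hn hs h.1 h.2
  · rintro ⟨T, a, y, h1, h2, h3, h4, rfl⟩
    refine ⟨hmem T a y h2 h3, ?_⟩
    rw [fDeg_add, h4, zero_add]
    have e1 : fDeg n (∑ D ∈ T, a D • toReal D) = ∑ D ∈ T, a D := by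
      refine Eq.trans (map_sum (fL (s := s) n) _ _) (Finset.sum_congr rfl fun D hD => ?_)
      refine Eq.trans (fDeg_smul _ _) ?_
      rw [weyl_fDeg ⟨D, (h2 D hD).1, rfl⟩, mul_one]
    rw [e1]
    exact Finset.sum_nonneg fun D hD => (h2 D hD).2.le
  · rintro ⟨T, a, y, h1, h2, h3, h4, rfl⟩
    exact hmem T a y (fun D hD => ⟨(h2 D hD).1, (h2 D hD).2.2⟩) h3

end Pool.Agent.Results.MP_e075e6_ag.ConeTheorem
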